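import Pool.Agent.Helper68.QC.St1

/-! # Part M of project QD: module QSD -/

set_option autoImplicit false

open MeasureTheory Set Filter Topology Complex
open scoped ContDiff ComplexConjugate ENNReal

namespace Pool.Agent.Helper93.QC

open Pool.Agent.Helper68.QC

theorem pQSD : Pool.Agent.Helper68.QC.StQSD := by
  intro k hk w hw
  have hle : ∀ z, ‖dzb w z‖ ≤ ‖dz w z‖ := by
    intro z
    have h1 := hw.le z
    have h2 : 0 ≤ ‖dz w z‖ := norm_nonneg _
    nlinarith
  have hdet : ∀ z, |(fderiv ℝ w z).det| = jc (dz w) (dzb w) z := by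
    intro z
    rw [det_fderiv]
    refine abs_of_nonneg ?_
    have h1 := hle z
    have h2 : 0 ≤ ‖dzb w z‖ := norm_nonneg _
    nlinarith
  refine ⟨wd_smooth hw.smooth univ, ae_of_all _ hw.le, ?_⟩
  intro G _ _
  have hd : Differentiable ℝ w := hw.smooth.differentiable (by simp)
  have h := integral_image_eq_integral_abs_det_fderiv_smul (μ := (volume : Measure ℂ))
    MeasurableSet.univ (f := w) (f' := fun z => fderiv ℝ w z)
    (fun z _ => (hd z).hasFDerivAt.hasFDerivWithinAt) (w.injective.injOn) G
  rw [image_univ, w.surjective.range_eq, Measure.restrict_univ] at h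
  rw [h]
  refine integral_congr_ae (ae_of_all _ fun z => ?_)
  show G (w z) * (jc (dz w) (dzb w) z : ℂ) = |(fderiv ℝ w z).det| • G (w z)
  rw [hdet z, Complex.real_smul, mul_comm]

end Pool.Agent.Helper93.QC
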