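import Pool.Agent.Helper69.QC.St2

/-! # Project QD part C: module MVV -/

set_option autoImplicit false

open Complex MeasureTheory Set Filter Topology Metric
open scoped Real ENNReal

namespace Pool.Agent.Helper93.QC

open Pool.Agent.Helper69.QC Pool.Agent.Helper35.PM

theorem cMVV : St_MVV := by
  intro g hg U hU f hf
  have pot : Pot (fun z => 1 / ent (f z)) (fun p z => J (U (f p)) (f p) (f z)) :=
    po_ (SurfaceGroup g) f U hf.1 (fun z hz => qf_ g hg (f z) (hf.2 z hz))
      (fun z hz => hU (f z) (hf.2 z hz))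
  have h1 : ∀ z ∈ ball (0 : ℂ) 1, 1 / 2 ≤ 1 / ent (f z) := pot.1
  have hpos : ∀ z ∈ ball (0 : ℂ) 1, 0 < ent (f z) := by
    intro z hz
    have h2 := h1 z hz
    have h3 : 0 < 1 / ent (f z) := by linarith
    exact one_div_pos.1 h3
  have hvv : ∀ z ∈ ball (0 : ℂ) 1, vv (f z) = 2 * (1 / ent (f z)) - 1 := by
    intro z hz
    have h2 := (hpos z hz).ne'
    unfold vv
    field_simp
  refine ⟨⟨?_, ?_⟩, ?_⟩
  · intro z hz
    show 0 ≤ vv (f z)
    rw [hvv z hz]
    have h2 := h1 z hz
    linarith
  · intro p hp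
    obtain ⟨G, hG, hle, hpp⟩ := pot.2 p hp
    refine ⟨fun z => 2 * G z - 1, (hG.const_mul 2).sub_const 1, ?_, ?_⟩
    · intro z hz
      have h2 : 1 / ent (f z) ≤ (G z).re := (hle z hz).2
      show vv (f z) ≤ (2 * G z - 1).re
      rw [hvv z hz]
      simp only [Complex.sub_re, Complex.mul_re, Complex.re_ofNat, Complex.im_ofNat, zero_mul,
        sub_zero, Complex.one_re]
      linarith
    · have h2 : (G p).re = 1 / ent (f p) := hpp
      show (2 * G p - 1).re = vv (f p)
      rw [hvv p hp]
      simp only [Complex.sub_re, Complex.mul_re, Complex.re_ofNat, Complex.im_ofNat, zero_mul,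
        sub_zero, Complex.one_re]
      linarith
  · intro z hz
    refine ⟨hpos z hz, ?_⟩
    have h2 := h1 z hz
    exact (one_div_le_one_div (by norm_num) (hpos z hz)).1 h2

end Pool.Agent.Helper93.QC
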